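import Pool.Agent.H37.CTP.Stmts
import Pool.Agent.H25.CTL.T54

/-!
Row R54 of the board `ctp`: the first estimates for `p = 2`; adapted from
`Pool/Agent/H22/CTO/P54.lean` (`q = r + 2`, `Q = R + 3`).
-/

set_option autoImplicit false

namespace Pool.CND

open Finset Polynomial

namespace R54

variable {k L : Type} [Field k] [Field L] [Algebra k L] (P : Place k L)

/-- the order of `M_1(x)` -/
theorem ordM {x x0 : L} (hx : x ≠ 0) (hx0 : x0 ≠ 0) (q : ℕ) (hq : 2 ≤ q) (h : P.ord x ≤ 0)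
    (h0 : 0 < P.ord x0) :
    x ^ q - x0 ^ (q - 1) * x ≠ 0 ∧ P.ord (x ^ q - x0 ^ (q - 1) * x) = q * P.ord x := by
  have h1 := P.ord_add_of_lt (x := x ^ q) (y := -(x0 ^ (q - 1) * x)) (pow_ne_zero q hx) (by
    refine P.ge_neg (Or.inr ?_)
    rw [P.ord_pow hx, P.ord_mul _ _ (pow_ne_zero _ hx0) hx, P.ord_pow hx0]
    obtain ⟨r, rfl⟩ : ∃ r, q = r + 2 := ⟨q - 2, by omega⟩
    have e : r + 2 - 1 = r + 1 := by omega
    rw [e]
    push_cast
    have h2 : 0 ≤ (r : ℤ) * P.ord x0 := by positivity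
    have h3 : (r : ℤ) * P.ord x ≤ 0 := mul_nonpos_of_nonneg_of_nonpos (by positivity) h
    nlinarith)
  rw [sub_eq_add_neg]
  rw [P.ord_pow hx] at h1
  exact h1

/-- the middle roots -/
theorem mid (r R : ℕ) (hR : 1 ≤ R) (t x x0 : L) (e n : ℤ) (he : 1 ≤ e) (hn1 : 1 ≤ n)
    (hn : ∀ m : ℤ, 2 * e ≤ ((R : ℤ) + 2) * m → n ≤ m)
    (ht : t ≠ 0) (hte : P.ord t = -e) (h2 : (2 : L) = 0) (hx : x ≠ 0) (hx0 : x0 ≠ 0)
    (hox0 : ((r : ℤ) + 1) * P.ord x0 = (((r : ℤ) + 2) * (R + 1) - 1) * e)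
    (hox : ((r : ℤ) + 2) * (R + 2) * P.ord x = -(R * e))
    (rel : x ^ ((r + 2) * ((r + 2) * (R + 3))) +
      t ^ ((r + 1) * (R + 1)) * x ^ ((r + 2) * (R + 3)) +
      t ^ ((r + 2) * (R + 1) - 1) * x ^ (r + 2) + x = 0) :
    P.Ge ((x ^ (r + 2) - x0 ^ (r + 1) * x) ^ (R + 2) / t ^ R - 1) n := by
  have hRZ : (1 : ℤ) ≤ R := by exact_mod_cast hR
  have hr0 : (0 : ℤ) ≤ r := Int.natCast_nonneg r
  have hRe : 0 ≤ (R : ℤ) * e := by positivity
  have hre : 0 ≤ (r : ℤ) * e := by positivity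
  have hrRe : 0 ≤ (r : ℤ) * R * e := by positivity
  have hx_le : P.ord x ≤ 0 := by
    by_contra hc
    rw [not_le] at hc
    have : 0 < ((r : ℤ) + 2) * (R + 2) * P.ord x := by positivity
    omega
  have n2 : (r + 2) * (R + 1) - 1 = r * R + r + 2 * R + 1 := by
    have : (r + 2) * (R + 1) = r * R + r + 2 * R + 1 + 1 := by ring
    omega
  have n0 : (r + 1) * (R + 1) = r * R + r + R + 1 := by ring
  rw [n2, n0] at rel
  set T : ℕ := r * R + r + 2 * R + 1 with hT
  -- the two small terms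
  set A : L := x ^ ((r + 2) * (r * R + 3 * r + 2 * R + 5)) * (t ^ T)⁻¹ with hA
  set B : L := (x ^ (r + 1))⁻¹ * (t ^ T)⁻¹ with hB
  have hTe : P.ord (t ^ T)⁻¹ = T * e := by
    rw [P.ord_inv (pow_ne_zero T ht), P.ord_pow ht, hte]
    ring
  have htT : (t ^ T)⁻¹ ≠ 0 := inv_ne_zero (pow_ne_zero T ht)
  have hD : 2 * e ≤ ((R : ℤ) + 2) * ((r * R + r + 2 * R + 1) * e) := by
    have h1 : 0 ≤ (R : ℤ) * ((r * R + r + 2 * R + 1) * e) := by positivity
    nlinarith
  have hAe : P.Ge A n := by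
    refine Or.inr (hn _ ?_)
    rw [hA, P.ord_mul _ _ (pow_ne_zero _ hx) htT, P.ord_pow hx, hTe, hT]
    push_cast
    have h3 : ((R : ℤ) + 2) * (((r : ℤ) + 2) * (r * R + 3 * r + 2 * R + 5) * P.ord x +
        (r * R + r + 2 * R + 1) * e) = 2 * (r + 1) * e := by
      linear_combination ((r : ℤ) * R + 3 * r + 2 * R + 5) * hox
    rw [h3]
    nlinarith
  have hBe : P.Ge B n := by
    refine Or.inr (hn _ ?_)
    rw [hB, P.ord_mul _ _ (inv_ne_zero (pow_ne_zero _ hx)) htT,
      P.ord_inv (pow_ne_zero _ hx), P.ord_pow hx, hTe, hT]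
    push_cast
    have h3 : ((r : ℤ) + 1) * P.ord x ≤ 0 :=
      mul_nonpos_of_nonneg_of_nonpos (by positivity) hx_le
    have h4 : 0 ≤ ((R : ℤ) + 2) * (-(((r : ℤ) + 1) * P.ord x)) :=
      mul_nonneg (by positivity) (by linarith)
    linarith
  set w : L := x ^ ((r + 2) * (R + 2)) / t ^ R with hw
  have hwe : w = -1 - (A + B) := by
    have e1 : x ^ ((r + 2) * ((r + 2) * (R + 3))) =
        x ^ ((r + 2) * (r * R + 3 * r + 2 * R + 5)) * x ^ (r + 2) := by
      rw [← pow_add]; congr 1; ring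
    have e2 : x ^ ((r + 2) * (R + 3)) = x ^ ((r + 2) * (R + 2)) * x ^ (r + 2) := by
      rw [← pow_add]; congr 1
    have e4 : t ^ T = t ^ (r * R + r + R + 1) * t ^ R := by
      rw [← pow_add]; congr 1; rw [hT]; ring
    have e5 : x ^ (r + 2) = x ^ (r + 1) * x := pow_succ _ _
    have hxr : x ^ (r + 1) ≠ 0 := pow_ne_zero _ hx
    have htr : t ^ (r * R + r + R + 1) ≠ 0 := pow_ne_zero _ ht
    have htR : t ^ R ≠ 0 := pow_ne_zero _ ht
    rw [hw, hA, hB]
    rw [e1, e2, e4] at rel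
    rw [e4]
    generalize x ^ ((r + 2) * (r * R + 3 * r + 2 * R + 5)) = a at rel ⊢
    generalize x ^ ((r + 2) * (R + 2)) = b at rel ⊢
    generalize t ^ (r * R + r + R + 1) = c at rel htr ⊢
    generalize t ^ R = d at rel htR ⊢
    rw [e5] at rel
    generalize x ^ (r + 1) = g at rel hxr ⊢
    have rel2 : (a + c * b + c * d) * g + 1 = 0 := by
      have : ((a + c * b + c * d) * g + 1) * x = 0 := by
        linear_combination rel
      rcases mul_eq_zero.1 this with h | h
      · exact h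
      · exact absurd h hx
    field_simp
    linear_combination rel2
  have hw1 : P.Ge (w - 1) n := by
    have e1 : w - 1 = -(A + B) := by
      rw [hwe]
      linear_combination -h2
    rw [e1]
    exact P.ge_neg (P.ge_add hAe hBe)
  -- the factor `1 - x0 ^ (q - 1) x ^ (1 - q)`
  set v : L := 1 - x0 ^ (r + 1) * (x ^ (r + 1))⁻¹ with hv
  have hv1 : P.Ge (v - 1) n := by
    have : v - 1 = -(x0 ^ (r + 1) * (x ^ (r + 1))⁻¹) := by rw [hv]; ring
    rw [this]
    refine P.ge_neg (Or.inr (hn _ ?_))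
    rw [P.ord_mul _ _ (pow_ne_zero _ hx0) (inv_ne_zero (pow_ne_zero _ hx)),
      P.ord_inv (pow_ne_zero _ hx), P.ord_pow hx, P.ord_pow hx0]
    push_cast
    have h3 : ((r : ℤ) + 1) * P.ord x ≤ 0 :=
      mul_nonpos_of_nonneg_of_nonpos (by positivity) hx_le
    have h4 : 0 ≤ ((R : ℤ) + 2) * (-(((r : ℤ) + 1) * P.ord x)) :=
      mul_nonneg (by positivity) (by linarith)
    have h5 : ((R : ℤ) + 2) * (((r : ℤ) + 1) * P.ord x0) =
        ((R : ℤ) + 2) * ((r * R + r + 2 * R + 1) * e) := by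
      rw [hox0]
      ring
    linarith
  have hyv : x ^ (r + 2) - x0 ^ (r + 1) * x = x ^ (r + 2) * v := by
    have hxr : x ^ (r + 1) ≠ 0 := pow_ne_zero _ hx
    have e5 : x ^ (r + 2) = x ^ (r + 1) * x := pow_succ _ _
    rw [hv, e5]
    field_simp
  have hfin : (x ^ (r + 2) - x0 ^ (r + 1) * x) ^ (R + 2) / t ^ R = w * v ^ (R + 2) := by
    rw [hyv, mul_pow, ← pow_mul, hw]
    ring
  rw [hfin]
  exact T54.u_mul P (by omega) hw1 (T54.u_pow P (by omega) hv1 _)

/-- the small root -/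
theorem small (r R : ℕ) (hR : 1 ≤ R) (t x0 : L) (e : ℤ) (he : 1 ≤ e)
    (ht : t ≠ 0) (hte : P.ord t = -e) (hx0 : x0 ≠ 0)
    (hox0 : ((r : ℤ) + 1) * P.ord x0 = (((r : ℤ) + 2) * (R + 1) - 1) * e)
    (rel : x0 ^ ((r + 2) * ((r + 2) * (R + 3))) +
      t ^ ((r + 1) * (R + 1)) * x0 ^ ((r + 2) * (R + 3)) +
      t ^ ((r + 2) * (R + 1) - 1) * x0 ^ (r + 2) + x0 = 0) :
    P.Ge (x0 ^ (r + 1) * t ^ ((r + 2) * (R + 1) - 1) + 1) e := by
  have hRZ : (1 : ℤ) ≤ R := by exact_mod_cast hR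
  have hr0 : (0 : ℤ) ≤ r := Int.natCast_nonneg r
  have hRe : 0 ≤ (R : ℤ) * e := by positivity
  have hre : 0 ≤ (r : ℤ) * e := by positivity
  have hrRe : 0 ≤ (r : ℤ) * R * e := by positivity
  have hpos : 0 < P.ord x0 := by
    by_contra hc
    rw [not_lt] at hc
    have h3 : ((r : ℤ) + 1) * P.ord x0 ≤ 0 := mul_nonpos_of_nonneg_of_nonpos (by positivity) hc
    have h4 : 0 < (((r : ℤ) + 2) * (R + 1) - 1) * e := by
      apply mul_pos
      · nlinarith
      · omega
    omega
  have n0 : (r + 1) * (R + 1) = r * R + r + R + 1 := by ring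
  have n2 : (r + 2) * (R + 3) = r * R + 3 * r + 2 * R + 5 + 1 := by ring
  have n3 : (r + 2) * ((r + 2) * (R + 3)) =
      ((r + 2) * (r * R + 3 * r + 2 * R + 5) + r + 1) + 1 := by ring
  have e5 : x0 ^ (r + 2) = x0 ^ (r + 1) * x0 := pow_succ _ _
  have key : x0 ^ (r + 1) * t ^ ((r + 2) * (R + 1) - 1) + 1 =
      -(t ^ (r * R + r + R + 1) * x0 ^ (r * R + 3 * r + 2 * R + 5)) -
      x0 ^ ((r + 2) * (r * R + 3 * r + 2 * R + 5) + r + 1) := by
    generalize t ^ ((r + 2) * (R + 1) - 1) = d at rel ⊢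
    rw [n0, n3, n2, pow_succ x0 ((r + 2) * (r * R + 3 * r + 2 * R + 5) + r + 1),
      pow_succ x0 (r * R + 3 * r + 2 * R + 5), e5] at rel
    apply mul_right_cancel₀ hx0
    linear_combination rel
  rw [key]
  -- `(q Q - 1) ord x0 ≥ Q (q - 1) ord x0 = Q D e`
  have hmul : ((R : ℤ) + 3) * ((r * R + r + 2 * R + 1) * e) ≤
      ((r : ℤ) * R + 3 * r + 2 * R + 5) * P.ord x0 := by
    have h3 : (((r : ℤ) + 1) * (R + 3)) * P.ord x0 = (R + 3) * ((r * R + r + 2 * R + 1) * e) := by
      linear_combination ((R : ℤ) + 3) * hox0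
    have h4 : 0 ≤ ((R : ℤ) + 2) * P.ord x0 := by positivity
    nlinarith
  have hbig : ((r : ℤ) * R + r + R + 1) * e + e ≤
      ((R : ℤ) + 3) * ((r * R + r + 2 * R + 1) * e) := by
    have h1 : 0 ≤ ((R : ℤ) + 2) * ((r * R + r + 2 * R + 1) * e) := by positivity
    nlinarith
  refine P.ge_sub (P.ge_neg (Or.inr ?_)) (Or.inr ?_)
  · rw [P.ord_mul _ _ (pow_ne_zero _ ht) (pow_ne_zero _ hx0), P.ord_pow ht, P.ord_pow hx0, hte]
    push_cast
    linarith
  · rw [P.ord_pow hx0]
    push_cast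
    have h6 : 0 ≤ ((r : ℤ) + 1) * ((r * R + 3 * r + 2 * R + 5) * P.ord x0) := by positivity
    have h7 : 0 ≤ ((r : ℤ) + 1) * P.ord x0 := by positivity
    have h8 : 0 ≤ ((r : ℤ) * R + r + R + 1) * e := by positivity
    nlinarith

end R54

theorem r54_thm : S_R54 := by
  intro k F L _ _ _ _ _ _ _ f q s t X Y Yt Yp P hchar hf hq hF hQ4 hR hO hY
  have : Fact (Nat.Prime 2) := ⟨Nat.prime_two⟩
  have : CharP L 2 := charP_of_injective_algebraMap (algebraMap k L).injective 2
  have h2 : (2 : L) = 0 := CharTwo.two_eq_zero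
  have hq2 : 2 ≤ q := by
    rw [hq]
    calc 2 = 2 ^ 1 := (pow_one 2).symm
      _ ≤ 2 ^ f := Nat.pow_le_pow_right (by omega) hf
  obtain ⟨r, hr⟩ : ∃ r, q = r + 2 := ⟨q - 2, by omega⟩
  obtain ⟨R, hRd⟩ : ∃ R, q ^ (s + 1) = R + 3 := ⟨q ^ (s + 1) - 3, by omega⟩
  have hR1 : 1 ≤ R := by omega
  have m1 : q - 1 = r + 1 := by omega
  have m2 : q ^ (s + 1) - 1 = R + 2 := by omega
  have m3 : q ^ (s + 1) - 2 = R + 1 := by omega
  have m3' : q ^ (s + 1) - 3 = R := by omega
  have m4 : q ^ (s + 2) = (r + 2) * (R + 3) := by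
    rw [pow_succ, hRd, hr]; ring
  have m5 : q ^ (s + 3) = (r + 2) * ((r + 2) * (R + 3)) := by
    rw [pow_succ, m4]
    conv_lhs => rw [hr]
    ring
  have hqZ : (q : ℤ) = r + 2 := by rw [hr]; push_cast; ring
  have hQZ : (q : ℤ) ^ (s + 1) = R + 3 := by exact_mod_cast congrArg (Nat.cast : ℕ → ℤ) hRd
  have ht : t ≠ 0 := by
    rintro rfl
    exact hR.tr isAlgebraic_zero
  have hr0 : (0 : ℤ) ≤ r := Int.natCast_nonneg r
  have hRZ : (1 : ℤ) ≤ R := by exact_mod_cast hR1
  obtain ⟨e, he⟩ : ∃ e, e = -P.ord t := ⟨_, rfl⟩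
  have hte : P.ord t = -e := by omega
  have he1 : 1 ≤ e := by
    have := hO.neg
    omega
  -- the threshold
  obtain ⟨n, hn, hn'⟩ : ∃ n : ℤ, (∀ m : ℤ, 2 * e ≤ ((R : ℤ) + 2) * m → n ≤ m) ∧
      2 * e ≤ ((R : ℤ) + 2) * n := by
    have hpos : (0 : ℤ) < (R : ℤ) + 2 := by omega
    refine ⟨-((-(2 * e)) / ((R : ℤ) + 2)), fun m hm => ?_, ?_⟩
    · have h3 : -m ≤ (-(2 * e)) / ((R : ℤ) + 2) := by
        rw [Int.le_ediv_iff_mul_le hpos]
        nlinarith
      linarith
    · have h3 := Int.ediv_mul_le (-(2 * e)) hpos.ne'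
      nlinarith
  have hn1 : 1 ≤ n := by
    by_contra hc
    rw [not_le] at hc
    have h3 : n ≤ 0 := by omega
    have h4 : ((R : ℤ) + 2) * n ≤ 0 := mul_nonpos_of_nonneg_of_nonpos (by positivity) h3
    linarith
  have hconv : ∀ z : L, P.Ge z n → z = 0 ∨ 2 * e ≤ ((R : ℤ) + 2) * P.ord z := by
    intro z hz
    rcases hz with h | h
    · exact Or.inl h
    · right
      have : ((R : ℤ) + 2) * n ≤ ((R : ℤ) + 2) * P.ord z :=
        mul_le_mul_of_nonneg_left h (by positivity)
      linarith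
  have hcst : ∀ a : F, cst k F L a ^ q = cst k F L a := by
    intro a
    have h1 : a ^ q = a := by
      have h3 := FiniteField.pow_card a
      rwa [← Nat.card_eq_fintype_card, hF] at h3
    change (algebraMap k L (algebraMap F k a)) ^ q = algebraMap k L (algebraMap F k a)
    rw [← map_pow, ← map_pow, h1]
  -- combinations are not zero
  have hne : ∀ c : Fin (s + 3) → F, c ≠ 0 → ∑ i, cst k F L (c i) * X i ≠ 0 :=
    fun c hc h => hc (hR.ind c h)
  have hXi : ∀ i, X i = ∑ j, cst k F L ((Pi.single i 1 : Fin (s + 3) → F) j) * X j := by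
    intro i
    rw [Finset.sum_eq_single i]
    · change X i = algebraMap k L (algebraMap F k ((Pi.single i 1 : Fin (s + 3) → F) i)) * X i
      rw [Pi.single_eq_same, map_one, map_one, one_mul]
    · intro j _ hj
      change algebraMap k L (algebraMap F k ((Pi.single i 1 : Fin (s + 3) → F) j)) * X j = 0
      rw [Pi.single_eq_of_ne hj, map_zero, map_zero, zero_mul]
    · intro h
      exact absurd (Finset.mem_univ i) h
  have hX0 : X 0 ≠ 0 := by
    rw [hXi 0]
    exact hne _ (fun h => one_ne_zero (by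
      have := congrFun h 0
      rwa [Pi.single_eq_same] at this))
  have hox0 : ((r : ℤ) + 1) * P.ord (X 0) = (((r : ℤ) + 2) * (R + 1) - 1) * e := by
    have h3 := hO.small
    rw [hQZ, hqZ, hte] at h3
    linarith
  have hpos : 0 < P.ord (X 0) := by
    by_contra hc
    rw [not_lt] at hc
    have h3 : ((r : ℤ) + 1) * P.ord (X 0) ≤ 0 :=
      mul_nonpos_of_nonneg_of_nonpos (by positivity) hc
    have h4 : 0 < (((r : ℤ) + 2) * (R + 1) - 1) * e := by
      apply mul_pos
      · nlinarith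
      · omega
    omega
  have hRe : 0 ≤ (R : ℤ) * e := by positivity
  -- middle combinations
  have hmid : ∀ c : Fin (s + 3) → F, c (Fin.last (s + 2)) = 0 → (∃ i, i ≠ 0 ∧ c i ≠ 0) →
      (∑ i, cst k F L (c i) * X i ≠ 0) ∧
      ((r : ℤ) + 2) * (R + 2) * P.ord (∑ i, cst k F L (c i) * X i) = -(R * e) ∧
      P.ord (∑ i, cst k F L (c i) * X i) ≤ 0 := by
    intro c hc hci
    have h0 : c ≠ 0 := by
      rintro rfl
      obtain ⟨i, -, hi⟩ := hci
      exact hi rfl
    have h3 := hO.mid c hc hci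
    rw [hQZ, hte, hqZ] at h3
    have h4 : ((r : ℤ) + 2) * (R + 2) * P.ord (∑ i, cst k F L (c i) * X i) = -(R * e) := by
      linarith
    refine ⟨hne c h0, h4, ?_⟩
    by_contra hc
    rw [not_le] at hc
    have : 0 < ((r : ℤ) + 2) * (R + 2) * P.ord (∑ i, cst k F L (c i) * X i) := by positivity
    omega
  have hmi0 : ∀ l : Fin (s + 1), mi s l ≠ 0 := by
    intro l h
    have := congrArg Fin.val h
    change l.val + 1 = 0 at this
    omega
  have hmil : ∀ l : Fin (s + 1), mi s l ≠ Fin.last (s + 2) := by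
    intro l h
    have := congrArg Fin.val h
    change l.val + 1 = s + 2 at this
    have := l.isLt
    omega
  have hXl : ∀ l : Fin (s + 1), X (mi s l) ≠ 0 ∧
      ((r : ℤ) + 2) * (R + 2) * P.ord (X (mi s l)) = -(R * e) ∧ P.ord (X (mi s l)) ≤ 0 := by
    intro l
    have h3 := hmid (Pi.single (mi s l) 1) (by
      rw [Pi.single_eq_of_ne (hmil l).symm]) ⟨mi s l, hmi0 l, by
      rw [Pi.single_eq_same]; exact one_ne_zero⟩
    rwa [← hXi] at h3
  have hrel : ∀ i, X i ^ ((r + 2) * ((r + 2) * (R + 3))) +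
      t ^ ((r + 1) * (R + 1)) * X i ^ ((r + 2) * (R + 3)) +
      t ^ ((r + 2) * (R + 1) - 1) * X i ^ (r + 2) + X i = 0 := by
    intro i
    have h3 := hR.rel i
    rw [m5, m4, m3, m1] at h3
    have h4 : q * (R + 1) - 1 = (r + 2) * (R + 1) - 1 := by rw [hr]
    rw [h4] at h3
    conv at h3 =>
      lhs
      rw [show X i ^ q = X i ^ (r + 2) from congrArg (fun a => X i ^ a) hr]
    exact h3
  have hY1 : ∀ l, Y l ≠ 0 ∧ P.ord (Y l) = q * P.ord (X (mi s l)) := by
    intro l
    rw [hY.y l]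
    exact R54.ordM P (hXl l).1 hX0 q (by omega) (hXl l).2.2 hpos
  have hY3 : ∀ l, P.Ge (Y l ^ (R + 2) / t ^ R - 1) n := by
    intro l
    have h3 := R54.mid P r R hR1 t (X (mi s l)) (X 0) e n he1 hn1 hn ht hte h2 (hXl l).1 hX0 hox0
      (hXl l).2.1 (hrel _)
    rw [hY.y l, m1]
    conv =>
      arg 2
      rw [show X (mi s l) ^ q = X (mi s l) ^ (r + 2) from congrArg (fun a => X (mi s l) ^ a) hr]
    exact h3
  have hY2 : ∀ l, ((R : ℤ) + 2) * P.ord (Y l) = -(R * e) := by
    intro l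
    rw [(hY1 l).2, hqZ]
    linarith [(hXl l).2.1]
  have hlastne : X (Fin.last (s + 2)) ≠ 0 := by
    rw [hXi (Fin.last (s + 2))]
    exact hne _ (fun h => one_ne_zero (by
      have := congrFun h (Fin.last (s + 2))
      rwa [Pi.single_eq_same] at this))
  have hlast : ((r : ℤ) + 2) * (R + 3) * P.ord (X (Fin.last (s + 2))) = -((R + 1) * e) := by
    have hc : (Pi.single (Fin.last (s + 2)) 1 : Fin (s + 3) → F) (Fin.last (s + 2)) ≠ 0 := by
      rw [Pi.single_eq_same]; exact one_ne_zero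
    have h3 := hO.top (Pi.single (Fin.last (s + 2)) 1) hc
    rw [← hXi, hte, hQZ, hqZ] at h3
    linarith
  have hlast0 : P.ord (X (Fin.last (s + 2))) ≤ 0 := by
    by_contra hc
    rw [not_le] at hc
    have h3 : 0 < ((r : ℤ) + 2) * (R + 3) * P.ord (X (Fin.last (s + 2))) := by positivity
    have h4 : 0 ≤ ((R : ℤ) + 1) * e := by positivity
    omega
  have hYt := R54.ordM P hlastne hX0 q (by omega) hlast0 hpos
  refine ⟨?_, ?_, ?_, ?_, ?_, ?_⟩
  · have h3 := R54.small P r R hR1 t (X 0) e he1 ht hte hX0 hox0 (hrel 0)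
    have h4 : q * (R + 1) - 1 = (r + 2) * (R + 1) - 1 := by rw [hr]
    rw [m1, m3, h4, hte, neg_neg]
    exact h3
  · intro l
    rw [hQZ, hte]
    linarith [hY2 l]
  · intro l
    rw [m2, m3', hte, hQZ]
    rcases hconv _ (hY3 l) with h | h
    · exact Or.inl (sub_eq_zero.1 h)
    · right
      have e1 : -2 * -e = 2 * e := by ring
      have e2 : (R : ℤ) + 3 - 1 = R + 2 := by ring
      rw [e1, e2]
      exact h
  · rw [hY.yt]
    exact hYt.1
  · rw [hY.yt, hYt.2, hQZ, hte, hqZ]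
    linarith [hlast]
  · -- the residues of the quotients
    have hroot : ∀ l, ∃ γ : k, γ ≠ 0 ∧ γ ^ (R + 2) = 1 ∧
        P.Ge (Y l / Y 0 - algebraMap k L γ) n := by
      intro l
      have hw : P.Ge ((Y l ^ (R + 2) / t ^ R) * (Y 0 ^ (R + 2) / t ^ R)⁻¹ - 1) n :=
        T54.u_mul P (by omega) (hY3 l) (T54.u_inv P hn1 (hY3 0))
      have hQ1 : R + 3 - 1 = R + 2 := by omega
      have hrl : (Y l / Y 0) ^ (R + 3 - 1) = algebraMap k L 1 *
          ((Y l ^ (R + 2) / t ^ R) * (Y 0 ^ (R + 2) / t ^ R)⁻¹) := by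
        have htR : t ^ R ≠ 0 := pow_ne_zero _ ht
        have hY0 : Y 0 ^ (R + 2) ≠ 0 := pow_ne_zero _ (hY1 0).1
        rw [hQ1, div_pow, map_one, one_mul]
        field_simp
      obtain ⟨γ, δ, hγ0, hγ1, hγδ, hδ, -⟩ := T54.root P (p := 2) (f * (s + 1)) (R + 3)
        (by rw [← hRd, hq, ← pow_mul]) (by omega) n hn1 (Y l / Y 0) _ 1 one_ne_zero hrl hw
      refine ⟨γ, hγ0, by rwa [hQ1] at hγ1, ?_⟩
      have e1 : Y l / Y 0 - algebraMap k L γ = algebraMap k L γ * δ := by
        rw [hγδ]; ring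
      rw [e1]
      exact P.ge_mono (P.ge_mul (P.ge_const γ) hδ) (by omega)
    choose γ hγ0 hγ1 hγ2 using hroot
    have hθ : ∀ l, P.Ge (Y l / Y 0 - algebraMap k L ((if l = 0 then 1 else γ l : k))) n := by
      intro l
      by_cases hl : l = 0
      · subst hl
        rw [if_pos rfl, map_one, div_self (hY1 0).1, sub_self]
        exact P.ge_zero n
      · rw [if_neg hl]
        exact hγ2 l
    refine ⟨fun l => if l = 0 then 1 else γ l, if_pos rfl, ?_, ?_, ?_⟩
    · intro l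
      change (if l = 0 then 1 else γ l) ^ q ^ (s + 1) = (if l = 0 then 1 else γ l)
      rw [hRd]
      by_cases hl : l = 0
      · rw [if_pos hl, one_pow]
      · rw [if_neg hl, pow_succ, hγ1 l, one_mul]
    · intro c hc
      by_contra hcne
      -- the combination of the roots
      set c' : Fin (s + 3) → F := Fin.cons 0 (Fin.snoc c 0 : Fin (s + 2) → F) with hc'
      have hcl : ∀ l : Fin (s + 1), c' (mi s l) = c l := by
        intro l
        have e1 : mi s l = l.castSucc.succ := rfl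
        rw [e1, hc', Fin.cons_succ, Fin.snoc_castSucc]
      have hclast : c' (Fin.last (s + 2)) = 0 := by
        have e1 : Fin.last (s + 2) = (Fin.last (s + 1)).succ := rfl
        rw [e1, hc', Fin.cons_succ, Fin.snoc_last]
      have hsum : ∀ f : Fin (s + 3) → L, ∑ i, cst k F L (c' i) * f i =
          ∑ l : Fin (s + 1), cst k F L (c l) * f (mi s l) := by
        intro f
        rw [Fin.sum_univ_succ, Fin.sum_univ_castSucc]
        have e0 : cst k F L (c' 0) = 0 := by
          change algebraMap k L (algebraMap F k (c' 0)) = 0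
          rw [hc', Fin.cons_zero, map_zero, map_zero]
        have e1 : cst k F L (c' (Fin.last (s + 1)).succ) = 0 := by
          change algebraMap k L (algebraMap F k (c' (Fin.last (s + 1)).succ)) = 0
          rw [hc', Fin.cons_succ, Fin.snoc_last, map_zero, map_zero]
        rw [e0, e1, zero_mul, zero_mul, zero_add, add_zero]
        refine Finset.sum_congr rfl fun l _ => ?_
        have e2 : c' l.castSucc.succ = c l := hcl l
        rw [e2]
        rfl
      obtain ⟨l0, hl0⟩ := Function.ne_iff.1 hcne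
      have hm := hmid c' hclast ⟨mi s l0, hmi0 l0, by rw [hcl]; exact hl0⟩
      rw [hsum X] at hm
      set x : L := ∑ l : Fin (s + 1), cst k F L (c l) * X (mi s l) with hxd
      have hM := R54.ordM P hm.1 hX0 q (by omega) hm.2.2 hpos
      have hMx : x ^ q - X 0 ^ (q - 1) * x = ∑ l : Fin (s + 1), cst k F L (c l) * Y l := by
        have e1 : x ^ q = ∑ l : Fin (s + 1), cst k F L (c l) * X (mi s l) ^ q := by
          have e2 : ∀ y : L, y ^ q = iterateFrobenius L 2 f y := fun y => by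
            rw [iterateFrobenius_def, hq]
          rw [e2, hxd, map_sum]
          refine Finset.sum_congr rfl fun l _ => ?_
          rw [map_mul, ← e2, ← e2, hcst]
        rw [e1, hxd, Finset.mul_sum, ← Finset.sum_sub_distrib]
        refine Finset.sum_congr rfl fun l _ => ?_
        rw [hY.y l]
        ring
      have hge : P.Ge (∑ l : Fin (s + 1), cst k F L (c l) * Y l) (P.ord (Y 0) + n) := by
        have e1 : ∑ l : Fin (s + 1), cst k F L (c l) * Y l =
            Y 0 * ∑ l : Fin (s + 1), cst k F L (c l) *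
              (Y l / Y 0 - algebraMap k L ((if l = 0 then 1 else γ l : k))) := by
          have e2 : ∑ l : Fin (s + 1), cst k F L (c l) *
              algebraMap k L ((if l = 0 then 1 else γ l : k)) = 0 := by
            have e3 := congrArg (algebraMap k L) hc
            rw [map_sum, map_zero] at e3
            rw [← e3]
            refine Finset.sum_congr rfl fun l _ => ?_
            rw [map_mul]
          have e4 : ∑ l : Fin (s + 1), cst k F L (c l) *
              (Y l / Y 0 - algebraMap k L ((if l = 0 then 1 else γ l : k))) =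
              ∑ l : Fin (s + 1), cst k F L (c l) * (Y l / Y 0) := by
            have e5 : ∑ l : Fin (s + 1), cst k F L (c l) *
                (Y l / Y 0 - algebraMap k L ((if l = 0 then 1 else γ l : k))) =
                ∑ l : Fin (s + 1), cst k F L (c l) * (Y l / Y 0) -
                ∑ l : Fin (s + 1), cst k F L (c l) *
                  algebraMap k L ((if l = 0 then 1 else γ l : k)) := by
              rw [← Finset.sum_sub_distrib]
              exact Finset.sum_congr rfl fun l _ => mul_sub _ _ _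
            rw [e5, e2, sub_zero]
          rw [e4, Finset.mul_sum]
          refine Finset.sum_congr rfl fun l _ => ?_
          have hY0 := (hY1 0).1
          field_simp
        rw [e1]
        refine P.ge_mul (P.ge_ord _) (P.ge_sum _ _ _ fun l _ => ?_)
        exact P.ge_mono (P.ge_mul (P.ge_const _) (hθ l)) (by omega)
      rw [← hMx] at hge
      have h6 := (P.ge_iff hM.1 _).1 hge
      rw [hM.2] at h6
      have h7 := hY2 0
      have h8 : ((R : ℤ) + 2) * (q * P.ord x) = -(R * e) := by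
        rw [hqZ]
        linarith [hm.2.1]
      have h9 : ((R : ℤ) + 2) * (P.ord (Y 0) + n) ≤ ((R : ℤ) + 2) * (q * P.ord x) :=
        mul_le_mul_of_nonneg_left h6 (by positivity)
      have h10 : 0 < ((R : ℤ) + 2) * n := by positivity
      linarith
    · intro l
      rw [hte, hQZ]
      rcases hconv _ (hθ l) with h | h
      · exact Or.inl (sub_eq_zero.1 h)
      · right
        have e1 : -2 * -e = 2 * e := by ring
        have e2 : (R : ℤ) + 3 - 1 = R + 2 := by ring
        rw [e1, e2]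
        exact h

end Pool.CND
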